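import Pool.Agent.Helper85.SV.GB

/-!
Project SV (MP_cb0067_co), packet GA: the generic case in the group.
-/

set_option autoImplicit false

open Finset
open scoped Pointwise

namespace Pool.Agent.Helper35.SV

open Pool.Agent.Helper95.SF Pool.Agent.Helper18.SV
open Pool.Agent.Helper85.SV.GB (card_le_S S_mono)

universe u

theorem T_le_mul (s m j : ℕ) (_hs : 2 ≤ s) (hmj : m + j = s) (hm : (s + 1) / 2 < m) :
    T s ≤ m * (s + j) := by
  rcases Nat.even_or_odd' s with ⟨t, ht | ht⟩
  · obtain ⟨r, hr⟩ : ∃ r, t = j + 1 + r := ⟨t - (j + 1), by omega⟩
    have hm' : m = j + 2 + 2 * r := by omega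
    rw [ht, T_even, hm', hr]
    nlinarith [Nat.zero_le (j * r), Nat.zero_le (r * r)]
  · obtain ⟨r, hr⟩ : ∃ r, t = j + 1 + r := ⟨t - (j + 1), by omega⟩
    have hm' : m = j + 3 + 2 * r := by omega
    rw [ht, T_odd, hm', hr]
    nlinarith [Nat.zero_le (j * r), Nat.zero_le (r * r)]

/-- packet GA. -/
theorem t : G_GA.{u} := by
  classical
  intro G _ _ _ s A hs hA hc3 hGrow
  have hne : A.Nonempty := Finset.card_pos.1 (by omega)
  obtain ⟨x, hxA⟩ := hne
  have hne : A.Nonempty := ⟨x, hxA⟩
  set K : AddSubgroup G := dif A with hKdef
  have hAK : ∀ a ∈ A, a - x ∈ K := fun a ha =>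
    AddSubgroup.subset_closure (Finset.mem_coe.2 (Finset.sub_mem_sub ha hxA))
  have hG : ∀ j k : ℕ, 1 ≤ j + k → (S A j k).card + 2 ≤ Nat.card K →
      (j + k) * A.card ≤ (S A j k).card := hGrow
  set Kf : Finset G := Finset.univ.filter (fun y => y ∈ K) with hKf
  have hKmem : ∀ y, y ∈ Kf ↔ y ∈ K := by
    intro y
    simp [hKf]
  have hKcard : Nat.card K = Kf.card := by
    rw [Nat.card_eq_fintype_card, hKf, Fintype.card_subtype]
  have hcoset : ∀ (X : Finset G) (c : G), (∀ y ∈ X, y - c ∈ K) → X.card ≤ Nat.card K := by
    intro X c hX
    rw [hKcard, ← Finset.card_vadd_finset (-c) X]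
    apply Finset.card_le_card
    intro w hw
    obtain ⟨y, hy, rfl⟩ := Finset.mem_vadd_finset.1 hw
    rw [hKmem, vadd_eq_add, neg_add_eq_sub]
    exact hX y hy
  set a : ℕ := (s + 1) / 2 with ha
  set b : ℕ := s / 2 with hb
  have hab : a + b = s := by omega
  have ha1 : 1 ≤ a := by omega
  have hb1 : 1 ≤ b := by omega
  set q : G ⧸ K := (QuotientAddGroup.mk x : G ⧸ K) with hq
  set m : ℕ := addOrderOf q with hm
  have hmpos : 0 < m := addOrderOf_pos q
  have hmx : m • x ∈ K := by
    have h1 : m • q = 0 := addOrderOf_nsmul_eq_zero q
    rw [hq] at h1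
    rw [← QuotientAddGroup.eq_zero_iff]
    exact h1
  have hme : m ∣ AddMonoid.exponent G := by
    apply addOrderOf_dvd_of_nsmul_eq_zero
    have h1 : AddMonoid.exponent G • q = ((AddMonoid.exponent G • x : G) : G ⧸ K) := rfl
    rw [h1, AddMonoid.exponent_nsmul_eq_zero]
    rfl
  have hmK : m * Nat.card K ≤ Fintype.card G := by
    have h1 : m ∣ Nat.card (G ⧸ K) := addOrderOf_dvd_natCard q
    have h2 := AddSubgroup.card_eq_card_quotient_mul_card_addSubgroup K
    rw [← Nat.card_eq_fintype_card, h2]
    exact Nat.mul_le_mul_right _ (Nat.le_of_dvd Nat.card_pos h1)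
  rcases Nat.lt_or_ge s m with hsm | hms
  · -- case (i)
    refine Or.inr ⟨m, hsm, hme, ?_⟩
    have h1 := hcoset A x hAK
    calc A.card * m ≤ Nat.card K * m := Nat.mul_le_mul_right _ h1
      _ = m * Nat.card K := Nat.mul_comm _ _
      _ ≤ Fintype.card G := hmK
  · left
    rcases Nat.lt_or_ge a m with ham | hma
    · -- case (iii)
      have hdis : Disjoint (S A 0 b) (S A a (s - m)) :=
        S_disjoint hA (j := 0) (k := b) (j' := a) (k' := s - m) (by omega) (by omega) (by omega)
      have hco : ∀ y ∈ S A 0 b ∪ S A a (s - m), y - (-(b • x)) ∈ K := by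
        intro y hy
        rcases Finset.mem_union.1 hy with h | h
        · have h2 := S_coset K x hAK 0 b y h
          rw [zero_nsmul, zero_sub] at h2
          exact h2
        · have h2 := S_coset K x hAK a (s - m) y h
          have h3 : y - (-(b • x)) = (y - (a • x - (s - m) • x)) + m • x := by
            have h4 : a • x + b • x = (s - m) • x + m • x := by
              rw [← add_nsmul, ← add_nsmul]
              congr 1
              omega
            have h5 : a • x - (s - m) • x = m • x - b • x := by
              rw [sub_eq_sub_iff_add_eq_add, h4, add_comm]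
            rw [h5]
            abel
          rw [h3]
          exact K.add_mem h2 hmx
      have hun := hcoset _ _ hco
      rw [Finset.card_union_of_disjoint hdis] at hun
      have h1 : A.card ≤ (S A a (s - m)).card := card_le_S hne _ _ ha1
      have h2 : A.card ≤ (S A 0 b).card := by
        rw [S_card_comm]
        exact card_le_S hne _ _ hb1
      have g1 := hG a (s - m) (by omega) (by omega)
      have g2 := hG 0 b (by omega) (by omega)
      obtain ⟨j, hj⟩ : ∃ j, m + j = s := ⟨s - m, by omega⟩
      have hsm : s - m = j := by omega
      rw [hsm] at hun g1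
      have h3 : (s + j) * A.card ≤ Nat.card K := by
        have e1 : (s + j) * A.card = (a + j) * A.card + (0 + b) * A.card := by
          rw [← hab]
          ring
        omega
      have h4 := T_le_mul s m j hs hj ham
      calc T s * A.card ≤ (m * (s + j)) * A.card := Nat.mul_le_mul_right _ h4
        _ = m * ((s + j) * A.card) := Nat.mul_assoc _ _ _
        _ ≤ m * Nat.card K := Nat.mul_le_mul_left _ h3
        _ ≤ Fintype.card G := hmK
    · -- case (ii)
      have hclaim : (S A a b).card + 2 ≤ Nat.card K := by
        by_contra hcon
        push Not at hcon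
        have hV : A.card ≤ (S A b (a - m)).card := card_le_S hne _ _ hb1
        have hcard : Nat.card K < (S A a b).card + (-(S A b (a - m))).card := by
          rw [Finset.card_neg]
          omega
        have hnd : ¬ Disjoint (S A a b) (-(S A b (a - m))) := by
          intro hd
          have h1 := hcoset (S A a b ∪ -(S A b (a - m))) (a • x - b • x) (by
            intro y hy
            rcases Finset.mem_union.1 hy with h | h
            · exact S_coset K x hAK a b y h
            · have h2 := S_coset K x hAK b (a - m) (-y) (Finset.mem_neg'.1 h)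
              have h3 : y - (a • x - b • x) = -((-y) - (b • x - (a - m) • x)) - m • x := by
                have h4 : a • x = (a - m) • x + m • x := by
                  rw [← add_nsmul]
                  congr 1
                  omega
                rw [h4]
                abel
              rw [h3]
              exact K.sub_mem (K.neg_mem h2) hmx)
          rw [Finset.card_union_of_disjoint hd] at h1
          omega
        obtain ⟨z, hz1, hz2⟩ := Finset.not_disjoint_iff.1 hnd
        have hz3 : -z ∈ S A b (a - m) := Finset.mem_neg'.1 hz2
        obtain ⟨U, V, hU, hV, hUc, hVc, hUV⟩ := (mem_S_iff A a b z).1 hz1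
        obtain ⟨U', V', hU', hV', hUc', hVc', hUV'⟩ := (mem_S_iff A b (a - m) (-z)).1 hz3
        have hsum : (U + U').sum = (V + V').sum := by
          rw [Multiset.sum_add, Multiset.sum_add]
          have e1 : U.sum = z + V.sum := by
            rw [← hUV]
            abel
          have e2 : U'.sum = -z + V'.sum := by
            rw [← hUV']
            abel
          rw [e1, e2]
          abel
        exact (isSumFree_iff s A).1 hA (U + U') (V + V')
          (fun y hy => by
            rcases Multiset.mem_add.1 hy with h | h
            · exact hU y h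
            · exact hU' y h)
          (fun y hy => by
            rcases Multiset.mem_add.1 hy with h | h
            · exact hV y h
            · exact hV' y h) (by rw [Multiset.card_add]; omega) (by rw [Multiset.card_add]; omega)
          (by rw [Multiset.card_add, Multiset.card_add]; omega) hsum
      set X : ℕ → Finset G := fun i => S A (min i a) (min (s - i) b) with hX
      have hXcard : ∀ i ∈ Finset.range (s + 1),
          (min i a + min (s - i) b) * A.card ≤ (X i).card := by
        intro i hi
        rw [Finset.mem_range] at hi
        refine hG _ _ (by omega) ?_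
        have h1 : (S A (min i a) (min (s - i) b)).card ≤ (S A a b).card :=
          S_mono hne (by omega) (by omega)
        omega
      have hdis : ∀ i i', i < i' → i' ≤ s → Disjoint (X i) (X i') := by
        intro i i' hii hi'
        exact S_disjoint hA (j := min i a) (k := min (s - i) b) (j' := min i' a)
          (k' := min (s - i') b) (by omega) (by omega) (by omega)
      have hsum : ∑ i ∈ Finset.range (s + 1), (X i).card ≤ Fintype.card G := by
        rw [← Finset.card_biUnion]
        · exact Finset.card_le_univ _
        · intro i hi i' hi' hii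
          have hi := Finset.mem_range.1 (Finset.mem_coe.1 hi)
          have hi' := Finset.mem_range.1 (Finset.mem_coe.1 hi')
          rcases lt_or_gt_of_ne hii with h | h
          · exact hdis i i' h (by omega)
          · exact (hdis i' i h (by omega)).symm
      have h2 := Finset.sum_le_sum hXcard
      rw [← Finset.sum_mul, ha, hb, sum_T] at h2
      exact h2.trans hsum

end Pool.Agent.Helper35.SV
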